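import Pool.Agent.Y547.SX.MinB

set_option autoImplicit false

/-!
Project SX (helper969), job SX-MIN: the high frequencies are negligible.
-/

namespace Pool.Agent.Y547.SX

open Filter Topology MeasureTheory Complex
open Pool.Agent.Y969.GP (ff ht lam FR PS PX cr V mB S_LSW S_CR)
open Pool.Agent.Y969.SM (Lam PL F0 S_BLK S_FB S_MIN)
open Pool.Agent.H306R2.SM (om)
open Pool.Agent.H262R4.TM (Rng)
open Pool.Agent.Y125.GP (ev CRB ae_mB)

noncomputable section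

lemma om_cont (κ : ℕ) (δ : ℝ) : Continuous (om κ δ) := by
  unfold om
  fun_prop

lemma om_nonneg (κ : ℕ) {δ t : ℝ} (hδ : 0 ≤ δ) (ht : 0 ≤ t) : 0 ≤ om κ δ t := by
  unfold om
  positivity

lemma om_le (κ : ℕ) {δ t : ℝ} (hδ : 0 ≤ δ) (ht : 0 ≤ t) : om κ δ t ≤ δ := by
  unfold om
  have h := Real.pow_div_factorial_le_exp (δ * t) (by positivity) κ
  calc δ ^ (κ + 1) * t ^ κ * Real.exp (-(δ * t)) / (κ.factorial : ℝ)
      = δ * (((δ * t) ^ κ / (κ.factorial : ℝ)) * Real.exp (-(δ * t))) := by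
        rw [mul_pow]
        ring
    _ ≤ δ * (Real.exp (δ * t) * Real.exp (-(δ * t))) := by gcongr
    _ = δ := by rw [← Real.exp_add]; simp

lemma mem_FR {X : ℕ} {p : ℕ × ℕ} : p ∈ FR X ↔
    (1 ≤ p.1 ∧ 1 ≤ p.2) ∧ p.1 * p.2 ≤ X ∧ Nat.Coprime p.1 p.2 := by
  unfold FR PS
  simp only [Finset.mem_filter, Finset.mem_product, Finset.mem_Icc]
  constructor
  · rintro ⟨⟨⟨h1, h2⟩, h3⟩, h4⟩
    exact ⟨⟨h1.1, h2.1⟩, h3, h4⟩
  · rintro ⟨⟨h1, h2⟩, h3, h4⟩
    refine ⟨⟨⟨⟨h1, ?_⟩, ⟨h2, ?_⟩⟩, h3⟩, h4⟩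
    · exact (Nat.le_mul_of_pos_right _ h2).trans h3
    · exact (Nat.le_mul_of_pos_left _ h1).trans h3

lemma FR_mono {X Z : ℕ} (h : Z ≤ X) : FR Z ⊆ FR X := by
  intro p hp
  rw [mem_FR] at hp ⊢
  exact ⟨hp.1, hp.2.1.trans h, hp.2.2⟩

/-- the tuples with a large height -/
def DD (n X Z : ℕ) : Finset (Fin n → ℕ × ℕ) :=
  (Fintype.piFinset fun _ : Fin n => FR X) \ (Fintype.piFinset fun _ : Fin n => FR Z)

lemma DD_sub (n X Z : ℕ) : DD n X Z ⊆ Fintype.piFinset fun _ : Fin n => FR X := Finset.sdiff_subset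

lemma DD_hn {n X Z : ℕ} {q : Fin n → ℕ × ℕ} (hq : q ∈ DD n X Z) : Z < hn q ∧ hn q ≤ X ^ n := by
  unfold DD at hq
  rw [Finset.mem_sdiff, Fintype.mem_piFinset, Fintype.mem_piFinset] at hq
  obtain ⟨h1, h2⟩ := hq
  push Not at h2
  obtain ⟨j, hj⟩ := h2
  have h3 := mem_FR.1 (h1 j)
  have h4 : Z < (q j).1 * (q j).2 := by
    by_contra hcon
    push Not at hcon
    exact hj (mem_FR.2 ⟨h3.1, hcon, h3.2.2⟩)
  constructor
  · refine h4.trans_le ?_
    unfold hn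
    exact Finset.single_le_prod' (f := fun j => (q j).1 * (q j).2)
      (fun i _ => by
        have := (mem_FR.1 (h1 i)).1
        exact Nat.mul_pos this.1 this.2) (Finset.mem_univ j)
  · unfold hn
    calc ∏ j, ((q j).1 * (q j).2) ≤ ∏ _j : Fin n, X :=
          Finset.prod_le_prod' fun i _ => (mem_FR.1 (h1 i)).2.1
      _ = X ^ n := by rw [Finset.prod_const, Finset.card_univ, Fintype.card_fin]

/-- one product as a sum over tuples -/
lemma prod_eq {n X Y : ℕ} {c : Fin n → ℝ} {t : ℝ} (hc : ∀ j, 1 / 2 ≤ t + c j) :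
    ∏ j, ∑ p ∈ FR Y, (cr X p (t + c j) : ℂ) * cexp (I * (((t + c j) * lam p : ℝ) : ℂ)) =
      ∑ q ∈ Fintype.piFinset (fun _ : Fin n => FR Y), cexp (I * ((t * Lam q : ℝ) : ℂ)) *
        ∏ i, ((ev X 0 (q i) (t + c i) : ℂ) * cexp (I * ((c i * lam (q i) : ℝ) : ℂ))) := by
  rw [Finset.prod_univ_sum]
  refine Finset.sum_congr rfl fun q _ => ?_
  have h1 : ∀ j : Fin n, (cr X (q j) (t + c j) : ℂ) *
      cexp (I * (((t + c j) * lam (q j) : ℝ) : ℂ)) =
      cexp (I * ((t * lam (q j) : ℝ) : ℂ)) *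
        ((ev X 0 (q j) (t + c j) : ℂ) * cexp (I * ((c j * lam (q j) : ℝ) : ℂ))) := by
    intro j
    have h2 : ev X 0 (q j) (t + c j) = cr X (q j) (t + c j) := by
      show cr X (q j) (max (1 / 2) (t + c j)) = _
      rw [max_eq_right (hc j)]
    have h3 : cexp (I * (((t + c j) * lam (q j) : ℝ) : ℂ)) =
        cexp (I * ((t * lam (q j) : ℝ) : ℂ)) * cexp (I * ((c j * lam (q j) : ℝ) : ℂ)) := by
      rw [← Complex.exp_add]
      congr 1
      push_cast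
      ring
    rw [h2, h3]
    ring
  rw [Finset.prod_congr rfl fun j _ => h1 j, Finset.prod_mul_distrib, ← Complex.exp_sum]
  congr 2
  unfold Lam
  push_cast
  simp only [Finset.mul_sum]

/-- the difference of the products -/
lemma diff_eq {n X Z : ℕ} (hZX : Z ≤ X)
    (hP : ∀ (X : ℕ) (u : ℝ), PX X u = ∑ p ∈ FR X, (cr X p u : ℂ) * cexp (I * ((u * lam p : ℝ) : ℂ)))
    (φ : ℝ → ℂ) {c : Fin n → ℝ} {t : ℝ} (hc : ∀ j, 1 / 2 ≤ t + c j) :
    φ t * ((∏ j, PX X (t + c j)) - ∏ j, PL X Z (t + c j)) = MM φ X (DD n X Z) c t := by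
  have h1 : ∏ j, PX X (t + c j) = ∑ q ∈ Fintype.piFinset (fun _ : Fin n => FR X),
      cexp (I * ((t * Lam q : ℝ) : ℂ)) *
        ∏ i, ((ev X 0 (q i) (t + c i) : ℂ) * cexp (I * ((c i * lam (q i) : ℝ) : ℂ))) := by
    rw [← prod_eq hc]
    exact Finset.prod_congr rfl fun j _ => hP X _
  have h2 : ∏ j, PL X Z (t + c j) = ∑ q ∈ Fintype.piFinset (fun _ : Fin n => FR Z),
      cexp (I * ((t * Lam q : ℝ) : ℂ)) *
        ∏ i, ((ev X 0 (q i) (t + c i) : ℂ) * cexp (I * ((c i * lam (q i) : ℝ) : ℂ))) := by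
    rw [← prod_eq hc]
    rfl
  rw [h1, h2, ← Finset.sum_sdiff_eq_sub (Fintype.piFinset_subset _ _ fun _ => FR_mono hZX),
    Finset.mul_sum]
  unfold MM DD
  refine Finset.sum_congr rfl fun q _ => ?_
  ring

set_option maxHeartbeats 4000000 in
theorem t_MIN (k : ℕ) (h1 : S_BLK) (h2 : S_FB k)
    (h3 : ∀ᶠ T : ℝ in atTop, ∀ κ : ℕ, Rng T κ →
      ∫ t in Set.Ioi (0:ℝ), om κ (κ / T) t * |F0 k T t| ≤ Real.log T ^ 5 ∧
      IntegrableOn (fun t => om κ (κ / T) t * |F0 k T t|) (Set.Ioi 0))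
    (h4 : S_LSW) (h5 : S_CR) : S_MIN k := by
  obtain ⟨hP, -, C3, hC3, hcr0⟩ := h5
  intro n σ A hσ hA
  obtain ⟨C2, hC2, hL⟩ := h4 n
  -- parameters
  obtain ⟨m, hm⟩ : ∃ m : ℕ, m = ⌈1 / (2 * σ)⌉₊ + 1 := ⟨_, rfl⟩
  have hm1 : 1 ≤ m := by rw [hm]; omega
  have hmR : (1:ℝ) ≤ m := by exact_mod_cast hm1
  have hmσ : 1 ≤ σ * (2 * m) := by
    have e1 : 1 / (2 * σ) ≤ m := by
      rw [hm]
      push_cast
      have := Nat.le_ceil (1 / (2 * σ))
      linarith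
    rw [div_le_iff₀ (by positivity)] at e1
    linarith
  obtain ⟨N1, hN1⟩ : ∃ N1 : ℕ, N1 = 8 * n + 15 := ⟨_, rfl⟩
  have hN1R : (15:ℝ) ≤ N1 := by
    rw [hN1]
    push_cast
    have : (0:ℝ) ≤ n := by positivity
    linarith
  obtain ⟨δ, hδ⟩ : ∃ δ : ℝ, δ = 1 / (80 * m) := ⟨_, rfl⟩
  have hδ0 : 0 < δ := by rw [hδ]; positivity
  have hδ1 : δ ≤ 1 / 80 := by
    rw [hδ]
    apply one_div_le_one_div_of_le (by norm_num)
    linarith
  obtain ⟨ε, hε⟩ : ∃ ε : ℝ, ε = δ / N1 := ⟨_, rfl⟩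
  have hε0 : 0 < ε := by rw [hε]; positivity
  have hεδ : ε * N1 = δ := by
    rw [hε]
    field_simp
  have hε1 : ε ≤ 1 := by nlinarith
  obtain ⟨CB, hCB, hB⟩ := h1 n m ε hm1 hε0
  have hl2 : 0 < Real.log 2 := Real.log_pos (by norm_num)
  obtain ⟨c5, hc5⟩ : ∃ c5 : ℝ, c5 = 1 + 2 / ε := ⟨_, rfl⟩
  have hc5p : 0 < c5 := by rw [hc5]; positivity
  obtain ⟨c6, hc6⟩ : ∃ c6 : ℝ, c6 = 2 / (ε * Real.log 2) + 1 := ⟨_, rfl⟩
  have hc6p : 0 < c6 := by rw [hc6]; positivity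
  obtain ⟨Ct, hCt⟩ : ∃ Ct : ℝ, Ct = 4096 * ((n : ℝ) + 1) ^ 2 * ((C2 * ((A + 1) * c5)) ^ n *
      (((8 * A * C3 * c5) ^ 2) ^ n * (c6 * (2 * CB * (16 * (1 / ε) ^ 14) * 2)))) := ⟨_, rfl⟩
  refine ⟨ε, δ, hε0, hδ0, ?_⟩
  have t1 : Tendsto (fun T : ℝ => T ^ ε) atTop atTop := tendsto_rpow_atTop hε0
  filter_upwards [h2, h3, t1.eventually_ge_atTop Ct, eventually_ge_atTop (8 : ℝ)] with T hFB hF4 hTC
    hT8
  intro κ hκ U X Z hTU hUA hX hXT hZT hZX
  obtain ⟨hFc, hF2, -⟩ := hFB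
  obtain ⟨hF1, hFi⟩ := hF4 κ hκ
  have hT1 : 1 ≤ T := by linarith
  have hT0 : 0 < T := by linarith
  have hX1 : (1 : ℝ) ≤ X := by exact_mod_cast hX
  have hX0 : (0 : ℝ) < X := by linarith
  obtain ⟨y, hy⟩ : ∃ y : ℝ, y = T ^ ε := ⟨_, rfl⟩
  rw [← hy] at hTC
  have hy1 : 1 ≤ y := by rw [hy]; exact Real.one_le_rpow hT1 hε0.le
  have hy0 : 0 < y := by linarith
  have hXT' : (X : ℝ) ≤ T * y := by
    refine hXT.trans (le_of_eq ?_)
    rw [hy, Real.rpow_add hT0, Real.rpow_one]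
  have hlT : Real.log T ≤ y / ε := by
    rw [hy]
    exact Real.log_le_rpow_div hT0.le hε0
  have hlT1 : 1 ≤ Real.log T := by
    have e1 : Real.exp 1 ≤ T := by
      have := Real.exp_one_lt_d9
      linarith
    have := Real.log_le_log (Real.exp_pos 1) e1
    rwa [Real.log_exp] at this
  have hlX : Real.log X ≤ 2 * Real.log T := by
    calc Real.log X ≤ Real.log (T ^ (1 + ε)) := Real.log_le_log hX0 hXT
      _ = (1 + ε) * Real.log T := Real.log_rpow hT0 _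
      _ ≤ 2 * Real.log T := mul_le_mul_of_nonneg_right (by linarith) (by linarith)
  have hlX0 : 0 ≤ Real.log X := Real.log_nonneg hX1
  have hLX : 1 + Real.log X ≤ c5 * y := by
    calc 1 + Real.log X ≤ y + 2 * (y / ε) := by linarith
      _ = c5 * y := by rw [hc5]; ring
  -- the weight function
  obtain ⟨φ, hφ⟩ : ∃ φ : ℝ → ℂ, φ = fun t => ((om κ (κ / T) t * F0 k T t : ℝ) : ℂ) := ⟨_, rfl⟩
  have hφc : Continuous φ := by
    rw [hφ]
    exact Complex.continuous_ofReal.comp ((om_cont κ _).mul hFc)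
  have hκT : 0 ≤ (κ : ℝ) / T := by positivity
  have hκ4 : (κ : ℝ) / T ≤ 4 * Real.log T ^ 2 / T := div_le_div_of_nonneg_right hκ.2 hT0.le
  have hφn : ∀ t : ℝ, 0 ≤ t → ‖φ t‖ = om κ (κ / T) t * |F0 k T t| := by
    intro t ht
    rw [hφ]
    simp only [Complex.norm_real, Real.norm_eq_abs, abs_mul]
    rw [abs_of_nonneg (om_nonneg κ hκT ht)]
  have hI1 : ∫ t in Set.Icc 0 (8 * T), ‖φ t‖ ≤ Real.log T ^ 5 := by
    refine le_trans ?_ hF1
    rw [integral_Icc_eq_integral_Ioc]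
    calc ∫ t in Set.Ioc 0 (8 * T), ‖φ t‖ = ∫ t in Set.Ioc 0 (8 * T), om κ (κ / T) t * |F0 k T t| :=
          setIntegral_congr_fun measurableSet_Ioc fun t ht => hφn t ht.1.le
      _ ≤ ∫ t in Set.Ioi (0:ℝ), om κ (κ / T) t * |F0 k T t| := by
          apply setIntegral_mono_set hFi
          · filter_upwards [ae_restrict_mem measurableSet_Ioi] with t ht
            exact mul_nonneg (om_nonneg κ hκT (le_of_lt ht)) (abs_nonneg _)
          · exact (Set.Ioc_subset_Ioi_self).eventuallyLE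
  obtain ⟨I2, hI2d⟩ : ∃ I2 : ℝ, I2 = (4 * Real.log T ^ 2 / T) ^ 2 * T ^ (19 / 10 : ℝ) := ⟨_, rfl⟩
  have hI2 : ∫ t in Set.Icc 0 (8 * T), ‖φ t‖ ^ 2 ≤ I2 := by
    rw [integral_Icc_eq_integral_Ioc, ← intervalIntegral.integral_of_le (by linarith)]
    have hc1 : Continuous fun t => ‖φ t‖ ^ 2 := hφc.norm.pow 2
    have hc2 : Continuous fun t => (4 * Real.log T ^ 2 / T) ^ 2 * F0 k T t ^ 2 :=
      continuous_const.mul (hFc.pow 2)
    calc ∫ t in (0:ℝ)..(8 * T), ‖φ t‖ ^ 2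
        ≤ ∫ t in (0:ℝ)..(8 * T), (4 * Real.log T ^ 2 / T) ^ 2 * F0 k T t ^ 2 := by
          apply intervalIntegral.integral_mono_on (by linarith) (hc1.intervalIntegrable _ _)
            (hc2.intervalIntegrable _ _)
          intro t ht
          rw [hφn t ht.1, mul_pow, sq_abs]
          apply mul_le_mul_of_nonneg_right _ (sq_nonneg _)
          exact pow_le_pow_left₀ (om_nonneg κ hκT ht.1) ((om_le κ hκT ht.1).trans hκ4) 2
      _ = (4 * Real.log T ^ 2 / T) ^ 2 * ∫ t in (0:ℝ)..(8 * T), F0 k T t ^ 2 := by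
          rw [intervalIntegral.integral_const_mul]
      _ ≤ I2 := by
          rw [hI2d]
          exact mul_le_mul_of_nonneg_left hF2 (by positivity)
  -- the tuples
  have hZ1 : (1:ℝ) ≤ Z := (Real.one_le_rpow hT1 hσ.le).trans hZT
  have hZ1' : 1 ≤ Z := by exact_mod_cast hZ1
  have hM0 : ∀ t, T / 8 ≤ t → t ≤ 8 * T →
      ∑ q ∈ DD n X Z, ‖GG φ (T / 8) q t‖ ^ 2 * (∏ j, ht (q j))⁻¹ ≤
        ((2 * (X : ℝ) ^ n) ^ ε / (ε * Real.log 2) + 1) *
          (2 * CB * ((Real.log T ^ 5) ^ (2 - 1 / (2 * (m : ℝ))) * I2 ^ (1 / (4 * (m : ℝ)))) *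
            (2 * (X : ℝ) ^ n) ^ ε) := by
    intro t ht1 ht2
    refine blocks hε0 hCB hB hσ hmσ hφc hT1 hI1 hI2 (DD n X Z) hX ?_ ?_ ?_ ?_ ht1 ht2
    · intro q hq j
      have := mem_FR.1 (Fintype.mem_piFinset.1 (DD_sub n X Z hq) j)
      exact ⟨this.1.1, this.1.2, this.2.2⟩
    · intro q hq
      have e1 : (Z : ℝ) ≤ hn q := by exact_mod_cast (DD_hn hq).1.le
      exact hZT.trans e1
    · intro q hq
      exact lt_of_le_of_lt hZ1' (DD_hn hq).1
    · intro q hq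
      exact (DD_hn hq).2
  have hmain := l2 hC2 hC3 hL hφc hX (hcr0 X) hT8 hTU hUA hA (DD_sub n X Z) hM0
  have hlhs : ∫ c, ‖∫ t in (T / 8)..(8 * T), ((om κ (κ / T) t * F0 k T t : ℝ) : ℂ) *
      ((∏ j, PX X (t + c j)) - ∏ j, PL X Z (t + c j))‖ ^ 2 ∂(mB n 0 U) =
      ∫ c, ‖∫ t in (T / 8)..(8 * T), MM φ X (DD n X Z) c t‖ ^ 2 ∂(mB n 0 U) := by
    apply integral_congr_ae
    filter_upwards [ae_mB n 0 U] with c hc
    congr 2
    apply intervalIntegral.integral_congr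
    intro t ht
    rw [Set.uIcc_of_le (by linarith)] at ht
    have := diff_eq hZX hP φ (c := c) (t := t) (fun j => by
      have e1 := (hc j).1
      have e2 := ht.1
      linarith)
    simp only [hφ] at this ⊢
    exact this
  rw [hlhs]
  refine hmain.trans ?_
  -- arithmetic
  have hA0 : 0 < A := by linarith
  have hU0 : 0 < U := by linarith
  obtain ⟨Tm, hTm⟩ : ∃ Tm : ℝ, Tm = T ^ (-(2 * δ)) := ⟨_, rfl⟩
  have hTm0 : 0 < Tm := by rw [hTm]; positivity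
  have b1 : (U + X) * (1 + Real.log X) ≤ ((A + 1) * c5) * T * y ^ 2 := by
    have e1 : U + X ≤ (A + 1) * T * y := by nlinarith
    calc (U + X) * (1 + Real.log X) ≤ ((A + 1) * T * y) * (c5 * y) :=
          mul_le_mul e1 hLX (by linarith) (by positivity)
      _ = _ := by ring
  have b2 : (2 * (X : ℝ) ^ n) ^ ε ≤ 2 * y ^ (2 * n) := by
    have hyε : y ^ ε ≤ y := by
      calc y ^ ε ≤ y ^ (1:ℝ) := Real.rpow_le_rpow_of_exponent_le hy1 hε1
        _ = y := Real.rpow_one y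
    calc (2 * (X : ℝ) ^ n) ^ ε ≤ (2 * (T * y) ^ n) ^ ε := by
          apply Real.rpow_le_rpow (by positivity) _ hε0.le
          gcongr
      _ = 2 ^ ε * ((T * y) ^ ε) ^ n := by
          rw [Real.mul_rpow (by norm_num) (by positivity), ← Real.rpow_natCast (T * y) n,
            ← Real.rpow_mul (by positivity), mul_comm (n : ℝ) ε, Real.rpow_mul (by positivity),
            Real.rpow_natCast]
      _ ≤ 2 * (y * y) ^ n := by
          have e1 : (2:ℝ) ^ ε ≤ 2 := by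
            calc (2:ℝ) ^ ε ≤ 2 ^ (1:ℝ) := Real.rpow_le_rpow_of_exponent_le (by norm_num) hε1
              _ = 2 := Real.rpow_one 2
          have e2 : (T * y) ^ ε ≤ y * y := by
            rw [Real.mul_rpow hT0.le hy0.le, ← hy]
            exact mul_le_mul_of_nonneg_left hyε hy0.le
          exact mul_le_mul e1 (pow_le_pow_left₀ (by positivity) e2 n) (by positivity) (by norm_num)
      _ = 2 * y ^ (2 * n) := by
          rw [← pow_two, ← pow_mul]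
  have b3 : (Real.log T ^ 5) ^ (2 - 1 / (2 * (m : ℝ))) * I2 ^ (1 / (4 * (m : ℝ))) ≤
      16 * (1 / ε) ^ 14 * y ^ 14 * Tm := by
    have hL5 : 1 ≤ Real.log T ^ 5 := one_le_pow₀ hlT1
    have e1 : (Real.log T ^ 5) ^ (2 - 1 / (2 * (m : ℝ))) ≤ Real.log T ^ 10 := by
      calc (Real.log T ^ 5) ^ (2 - 1 / (2 * (m : ℝ))) ≤ (Real.log T ^ 5) ^ (2:ℝ) := by
            apply Real.rpow_le_rpow_of_exponent_le hL5
            have : 0 ≤ 1 / (2 * (m : ℝ)) := by positivity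
            linarith
        _ = Real.log T ^ 10 := by
            rw [show (2:ℝ) = ((2:ℕ) : ℝ) by norm_num, Real.rpow_natCast, ← pow_mul]
    have e2 : I2 = (16 * Real.log T ^ 4) * T ^ (-(1 / 10) : ℝ) := by
      rw [hI2d, div_pow, mul_pow]
      have e3 : T ^ (19 / 10 : ℝ) = T ^ 2 * T ^ (-(1 / 10) : ℝ) := by
        rw [← Real.rpow_natCast, ← Real.rpow_add hT0]
        norm_num
      rw [e3]
      field_simp
      ring
    have e4 : I2 ^ (1 / (4 * (m : ℝ))) ≤ (16 * Real.log T ^ 4) * Tm := by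
      rw [e2, Real.mul_rpow (by positivity) (by positivity), ← Real.rpow_mul hT0.le]
      have e5 : (-(1 / 10) : ℝ) * (1 / (4 * (m : ℝ))) = -(2 * δ) := by
        rw [hδ]
        field_simp
        norm_num
      rw [e5, ← hTm]
      apply mul_le_mul_of_nonneg_right _ hTm0.le
      have e6 : 1 ≤ 16 * Real.log T ^ 4 := by
        have : 1 ≤ Real.log T ^ 4 := one_le_pow₀ hlT1
        linarith
      calc (16 * Real.log T ^ 4) ^ (1 / (4 * (m : ℝ))) ≤ (16 * Real.log T ^ 4) ^ (1:ℝ) := by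
            apply Real.rpow_le_rpow_of_exponent_le e6
            rw [div_le_one (by positivity)]
            linarith
        _ = _ := Real.rpow_one _
    calc (Real.log T ^ 5) ^ (2 - 1 / (2 * (m : ℝ))) * I2 ^ (1 / (4 * (m : ℝ)))
        ≤ Real.log T ^ 10 * ((16 * Real.log T ^ 4) * Tm) :=
          mul_le_mul e1 e4 (by rw [hI2d]; positivity) (by positivity)
      _ = 16 * Real.log T ^ 14 * Tm := by ring
      _ ≤ 16 * (y / ε) ^ 14 * Tm := by
          have : Real.log T ^ 14 ≤ (y / ε) ^ 14 := pow_le_pow_left₀ (by linarith) hlT 14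
          gcongr
      _ = _ := by ring
  have hB0 : 0 ≤ (2 * (X : ℝ) ^ n) ^ ε := by positivity
  have hQ0 : 0 ≤ (Real.log T ^ 5) ^ (2 - 1 / (2 * (m : ℝ))) * I2 ^ (1 / (4 * (m : ℝ))) := by
    rw [hI2d]
    have : 0 ≤ Real.log T := by linarith
    positivity
  have b4 : ((2 * (X : ℝ) ^ n) ^ ε / (ε * Real.log 2) + 1) *
      (2 * CB * ((Real.log T ^ 5) ^ (2 - 1 / (2 * (m : ℝ))) * I2 ^ (1 / (4 * (m : ℝ)))) *
        (2 * (X : ℝ) ^ n) ^ ε) ≤
      (c6 * y ^ (2 * n)) * (2 * CB * (16 * (1 / ε) ^ 14 * y ^ 14 * Tm) * (2 * y ^ (2 * n))) := by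
    have e1 : (2 * (X : ℝ) ^ n) ^ ε / (ε * Real.log 2) + 1 ≤ c6 * y ^ (2 * n) := by
      have e2 : (2 * (X : ℝ) ^ n) ^ ε / (ε * Real.log 2) ≤ 2 * y ^ (2 * n) / (ε * Real.log 2) :=
        div_le_div_of_nonneg_right b2 (by positivity)
      have e3 : 1 ≤ y ^ (2 * n) := one_le_pow₀ hy1
      calc (2 * (X : ℝ) ^ n) ^ ε / (ε * Real.log 2) + 1
          ≤ 2 * y ^ (2 * n) / (ε * Real.log 2) + y ^ (2 * n) := add_le_add e2 e3
        _ = _ := by rw [hc6]; ring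
    apply mul_le_mul e1 _ (by positivity) (by positivity)
    apply mul_le_mul _ b2 hB0 (by positivity)
    exact mul_le_mul_of_nonneg_left b3 (by positivity)
  have b5 : (8 * A * C3 * (1 + Real.log X)) ^ 2 ≤ (8 * A * C3 * c5) ^ 2 * y ^ 2 := by
    rw [← mul_pow]
    apply pow_le_pow_left₀ (by positivity)
    calc 8 * A * C3 * (1 + Real.log X) ≤ 8 * A * C3 * (c5 * y) :=
          mul_le_mul_of_nonneg_left hLX (by positivity)
      _ = _ := by ring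
  have hfin : 4096 * ((n : ℝ) + 1) ^ 2 * ((C2 * ((U + X) * (1 + Real.log X))) ^ n *
      (((8 * A * C3 * (1 + Real.log X)) ^ 2) ^ n *
        (((2 * (X : ℝ) ^ n) ^ ε / (ε * Real.log 2) + 1) *
          (2 * CB * ((Real.log T ^ 5) ^ (2 - 1 / (2 * (m : ℝ))) * I2 ^ (1 / (4 * (m : ℝ)))) *
            (2 * (X : ℝ) ^ n) ^ ε)))) ≤
      4096 * ((n : ℝ) + 1) ^ 2 * ((C2 * (((A + 1) * c5) * T * y ^ 2)) ^ n *
      (((8 * A * C3 * c5) ^ 2 * y ^ 2) ^ n *
        ((c6 * y ^ (2 * n)) * (2 * CB * (16 * (1 / ε) ^ 14 * y ^ 14 * Tm) * (2 * y ^ (2 * n)))))) := by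
    have p0 : 0 ≤ (U + X) * (1 + Real.log X) := by positivity
    apply mul_le_mul_of_nonneg_left _ (by positivity)
    apply mul_le_mul (pow_le_pow_left₀ (by positivity)
      (mul_le_mul_of_nonneg_left b1 hC2.le) n) _ (by positivity) (by positivity)
    exact mul_le_mul (pow_le_pow_left₀ (by positivity) b5 n) b4 (by positivity) (by positivity)
  refine hfin.trans ?_
  have e1 : 4096 * ((n : ℝ) + 1) ^ 2 * ((C2 * (((A + 1) * c5) * T * y ^ 2)) ^ n *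
      (((8 * A * C3 * c5) ^ 2 * y ^ 2) ^ n *
        ((c6 * y ^ (2 * n)) * (2 * CB * (16 * (1 / ε) ^ 14 * y ^ 14 * Tm) * (2 * y ^ (2 * n)))))) =
      Ct * (T ^ n * (y ^ (8 * n + 14) * Tm)) := by
    rw [hCt]
    have q1 : (C2 * (((A + 1) * c5) * T * y ^ 2)) ^ n =
        (C2 * ((A + 1) * c5)) ^ n * T ^ n * y ^ (2 * n) := by
      rw [pow_mul, ← mul_pow, ← mul_pow]
      congr 1
      ring
    have q2 : ((8 * A * C3 * c5) ^ 2 * y ^ 2) ^ n = ((8 * A * C3 * c5) ^ 2) ^ n * y ^ (2 * n) := by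
      rw [mul_pow, ← pow_mul y]
    have q3 : y ^ (8 * n + 14) = y ^ (2 * n) * y ^ (2 * n) * y ^ (2 * n) * y ^ (2 * n) * y ^ 14 := by
      rw [← pow_add, ← pow_add, ← pow_add, ← pow_add]
      congr 1
      ring
    rw [q1, q2, q3]
    ring
  rw [e1]
  have hyN : y ^ N1 = T ^ δ := by
    rw [hy, ← Real.rpow_natCast, ← Real.rpow_mul hT0.le, hεδ]
  calc Ct * (T ^ n * (y ^ (8 * n + 14) * Tm)) ≤ y * (T ^ n * (y ^ (8 * n + 14) * Tm)) :=
        mul_le_mul_of_nonneg_right hTC (by positivity)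
    _ = T ^ n * (y ^ N1 * Tm) := by
        rw [hN1, show 8 * n + 15 = (8 * n + 14) + 1 by ring, pow_succ]
        ring
    _ = T ^ ((n : ℝ) - δ) := by
        rw [hyN, hTm, ← Real.rpow_natCast, ← Real.rpow_add hT0, ← Real.rpow_add hT0]
        congr 1
        ring

end

end Pool.Agent.Y547.SX
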