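import Pool.Agent.Y969.SM.Stm
import Pool.Agent.Y125.GP.Ev

set_option autoImplicit false

/-!
Project SX (helper969), job SX-MIN, part 1: integration by parts and the mean square over the shifts.
-/

namespace Pool.Agent.Y547.SX

open Pool.Agent.Y969.GP MeasureTheory Set
open Pool.Agent.Y969.SM (Lam)
open Pool.Agent.Y125.GP (ev CRB ev_cont ev_deriv ev_bd mink int_mB ae_mB)
open Complex hiding mk

noncomputable section

variable {n : ℕ}

/-- the weights -/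
def wf (X : ℕ) (C : ℝ) (p : ℕ × ℕ) : ℝ := C * (1 + Real.log X) * (√(ht p))⁻¹

/-- frequency integrals -/
def GG (φ : ℝ → ℂ) (a : ℝ) (q : Fin n → ℕ × ℕ) (t : ℝ) : ℂ :=
  ∫ s in a..t, φ s * cexp (I * ((s * Lam q : ℝ) : ℂ))

/-- the sums after integration by parts -/
def SD (φ : ℝ → ℂ) (a : ℝ) (X : ℕ) (D : Finset (Fin n → ℕ × ℕ)) (k : Fin n → ℕ) (c : Fin n → ℝ)
    (t : ℝ) : ℂ :=
  ∑ q ∈ D, GG φ a q t *
    ∏ i, ((ev X (k i) (q i) (t + c i) : ℂ) * cexp (I * ((c i * lam (q i) : ℝ) : ℂ)))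

/-- the integrand -/
def MM (φ : ℝ → ℂ) (X : ℕ) (D : Finset (Fin n → ℕ × ℕ)) (c : Fin n → ℝ) (t : ℝ) : ℂ :=
  ∑ q ∈ D, (φ t * cexp (I * ((t * Lam q : ℝ) : ℂ))) *
    ∏ i, ((ev X 0 (q i) (t + c i) : ℂ) * cexp (I * ((c i * lam (q i) : ℝ) : ℂ)))

lemma fr_cont {φ : ℝ → ℂ} (hφ : Continuous φ) (q : Fin n → ℕ × ℕ) :
    Continuous fun s : ℝ => φ s * cexp (I * ((s * Lam q : ℝ) : ℂ)) := by
  fun_prop

lemma GG_deriv {φ : ℝ → ℂ} (hφ : Continuous φ) (a : ℝ) (q : Fin n → ℕ × ℕ) (t : ℝ) :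
    HasDerivAt (GG φ a q) (φ t * cexp (I * ((t * Lam q : ℝ) : ℂ))) t :=
  ((fr_cont hφ q).integral_hasStrictDerivAt a t).hasDerivAt

lemma GG_cont {φ : ℝ → ℂ} (hφ : Continuous φ) (a : ℝ) (q : Fin n → ℕ × ℕ) :
    Continuous (GG φ a q) :=
  continuous_iff_continuousAt.2 fun t => (GG_deriv hφ a q t).continuousAt

lemma SD_cont {φ : ℝ → ℂ} (hφ : Continuous φ) (a : ℝ) {X : ℕ} {C : ℝ} (h : CRB X C)
    {D : Finset (Fin n → ℕ × ℕ)} (hD : D ⊆ Fintype.piFinset fun _ : Fin n => FR X)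
    (k : Fin n → ℕ) :
    Continuous (Function.uncurry fun (c : Fin n → ℝ) (t : ℝ) => SD φ a X D k c t) := by
  unfold SD Function.uncurry
  apply continuous_finsetSum
  intro q hq
  apply Continuous.mul ((GG_cont hφ a q).comp continuous_snd)
  apply continuous_finsetProd
  intro j _
  have hqj : q j ∈ FR X := Fintype.mem_piFinset.1 (hD hq) j
  apply Continuous.mul
  · exact Complex.continuous_ofReal.comp ((ev_cont h (k j) hqj).comp (by fun_prop))
  · fun_prop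

lemma MM_cont {φ : ℝ → ℂ} (hφ : Continuous φ) {X : ℕ} {C : ℝ} (h : CRB X C)
    {D : Finset (Fin n → ℕ × ℕ)} (hD : D ⊆ Fintype.piFinset fun _ : Fin n => FR X)
    (c : Fin n → ℝ) : Continuous (MM φ X D c) := by
  unfold MM
  apply continuous_finsetSum
  intro q hq
  apply Continuous.mul (fr_cont hφ q)
  apply continuous_finsetProd
  intro j _
  have hqj : q j ∈ FR X := Fintype.mem_piFinset.1 (hD hq) j
  apply Continuous.mul
  · exact Complex.continuous_ofReal.comp ((ev_cont h 0 hqj).comp (by fun_prop))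
  · fun_prop

/-- derivative in `t` -/
lemma SD_deriv {φ : ℝ → ℂ} (hφ : Continuous φ) (a : ℝ) {X : ℕ} {C : ℝ} (h : CRB X C)
    {D : Finset (Fin n → ℕ × ℕ)} (hD : D ⊆ Fintype.piFinset fun _ : Fin n => FR X)
    {c : Fin n → ℝ} (hc : ∀ j, 0 ≤ c j) {t : ℝ} (ht : 1 / 2 < t) :
    HasDerivAt (fun t => SD φ a X D (fun _ => 0) c t)
      (MM φ X D c t + ∑ j, SD φ a X D (fun i => if i = j then 1 else 0) c t) t := by
  have key : ∀ q ∈ D, HasDerivAt (fun t : ℝ => GG φ a q t *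
      ∏ i, ((ev X 0 (q i) (t + c i) : ℂ) * cexp (I * ((c i * lam (q i) : ℝ) : ℂ))))
      ((φ t * cexp (I * ((t * Lam q : ℝ) : ℂ))) *
        (∏ i, ((ev X 0 (q i) (t + c i) : ℂ) * cexp (I * ((c i * lam (q i) : ℝ) : ℂ)))) +
        ∑ j, GG φ a q t * ∏ i, ((ev X (if i = j then 1 else 0) (q i) (t + c i) : ℂ) *
          cexp (I * ((c i * lam (q i) : ℝ) : ℂ)))) t := by
    intro q hq
    have h1 : ∀ j ∈ (Finset.univ : Finset (Fin n)), HasDerivAt
        (fun t : ℝ => (ev X 0 (q j) (t + c j) : ℂ) * cexp (I * ((c j * lam (q j) : ℝ) : ℂ)))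
        ((ev X 1 (q j) (t + c j) : ℂ) * cexp (I * ((c j * lam (q j) : ℝ) : ℂ))) t := by
      intro j _
      have hu : 1 / 2 < t + c j := by linarith [hc j]
      have hqj : q j ∈ FR X := Fintype.mem_piFinset.1 (hD hq) j
      have h2 : HasDerivAt (fun t : ℝ => (ev X 0 (q j) (t + c j) : ℂ))
          ((ev X 1 (q j) (t + c j) : ℝ) : ℂ) t :=
        ((ev_deriv h (le_of_lt Nat.zero_lt_one) hqj hu).comp_add_const t (c j)).ofReal_comp
      exact h2.mul_const _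
    have h7 := HasDerivAt.fun_finsetProd h1
    refine ((GG_deriv hφ a q t).mul h7).congr_deriv ?_
    congr 1
    rw [Finset.mul_sum]
    refine Finset.sum_congr rfl fun j _ => ?_
    rw [smul_eq_mul]
    congr 1
    rw [← Finset.prod_erase_mul _ _ (Finset.mem_univ j), if_pos rfl]
    congr 1
    refine Finset.prod_congr rfl fun i hi => ?_
    rw [if_neg (Finset.ne_of_mem_erase hi)]
  have h12 := HasDerivAt.fun_sum key
  unfold SD MM
  refine h12.congr_deriv ?_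
  rw [Finset.sum_add_distrib]
  congr 1
  rw [Finset.sum_comm]

/-- integration by parts -/
lemma parts {φ : ℝ → ℂ} (hφ : Continuous φ) {a b : ℝ} (ha : 1 / 2 < a) (hab : a ≤ b) {X : ℕ}
    {C : ℝ} (h : CRB X C) {D : Finset (Fin n → ℕ × ℕ)}
    (hD : D ⊆ Fintype.piFinset fun _ : Fin n => FR X) {c : Fin n → ℝ} (hc : ∀ j, 0 ≤ c j) :
    ∫ t in a..b, MM φ X D c t = SD φ a X D (fun _ => 0) c b -
      ∑ j, ∫ t in a..b, SD φ a X D (fun i => if i = j then 1 else 0) c t := by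
  have hSc : ∀ k : Fin n → ℕ, Continuous fun t => SD φ a X D k c t := by
    intro k
    have h6 : (fun t : ℝ => SD φ a X D k c t) = fun t =>
        Function.uncurry (fun (c : Fin n → ℝ) (t : ℝ) => SD φ a X D k c t) (c, t) := rfl
    rw [h6]
    exact (SD_cont hφ a h hD k).comp (by fun_prop)
  have h1 := intervalIntegral.integral_eq_sub_of_hasDerivAt (a := a) (b := b)
    (f := fun t => SD φ a X D (fun _ => 0) c t)
    (f' := fun t => MM φ X D c t + ∑ j, SD φ a X D (fun i => if i = j then 1 else 0) c t)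
    (fun t ht => SD_deriv hφ a h hD hc (by
      rw [uIcc_of_le hab] at ht
      linarith [ht.1]))
    (((MM_cont hφ h hD c).add (continuous_finsetSum _ fun j _ => hSc _)).intervalIntegrable _ _)
  have h2 : SD φ a X D (fun _ => 0) c a = 0 := by
    unfold SD GG
    simp
  rw [intervalIntegral.integral_add ((MM_cont hφ h hD c).intervalIntegrable _ _)
    ((continuous_finsetSum _ fun j _ => hSc _).intervalIntegrable _ _),
    intervalIntegral.integral_finsetSum (fun j _ => (hSc _).intervalIntegrable _ _)] at h1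
  simp only [h2, sub_zero] at h1
  rw [← h1]
  ring

/-- mean square for fixed `t` -/
lemma fixed {C2 C3 : ℝ} (hC3 : 0 < C3)
    (hL : ∀ (X : ℕ) (a T : ℝ), 1 ≤ X → 1 ≤ T → 0 ≤ a → a ≤ T →
      ∀ (A A' : Fin n → ℕ × ℕ → ℝ → ℂ) (B : (Fin n → ℕ × ℕ) → ℂ) (w : Fin n → ℕ × ℕ → ℝ),
      (∀ j, ∀ p ∈ FR X, ∀ x ∈ Icc a T, HasDerivAt (A j p) (A' j p x) x) →
      (∀ j, ∀ p ∈ FR X, ContinuousOn (A' j p) (Icc a T)) →
      (∀ j, ∀ p ∈ FR X, ∀ x ∈ Icc a T, ‖A j p x‖ ≤ w j p) →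
      (∀ j, ∀ p ∈ FR X, ∫ x in a..T, ‖A' j p x‖ ≤ w j p) →
      ∫ c, ‖∑ q ∈ Fintype.piFinset (fun _ : Fin n => FR X),
          B q * ∏ j, (A j (q j) (c j) * cexp (I * ((c j * lam (q j) : ℝ) : ℂ)))‖ ^ 2 ∂(mB n a T) ≤
        (C2 * ((T + X) * (1 + Real.log X))) ^ n *
          ∑ q ∈ Fintype.piFinset (fun _ : Fin n => FR X), ‖B q‖ ^ 2 * ∏ j, w j (q j) ^ 2)
    (φ : ℝ → ℂ) (a : ℝ) {X : ℕ} {T U A t : ℝ} (hX : 1 ≤ X) (hcr : CRB X C3) (hT : 8 ≤ T)
    (hTU : T ≤ U) (hUA : U ≤ A * T) (hA : 1 ≤ A) (hta : T / 8 ≤ t)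
    {D : Finset (Fin n → ℕ × ℕ)} (hD : D ⊆ Fintype.piFinset fun _ : Fin n => FR X)
    {k : Fin n → ℕ} (hk : ∀ j, k j ≤ 1) :
    ∫ c, ‖SD φ a X D k c t‖ ^ 2 ∂(mB n 0 U) ≤
      (C2 * ((U + X) * (1 + Real.log X))) ^ n *
        ∑ q ∈ D, ‖GG φ a q t‖ ^ 2 * ∏ j, (8 * A * wf X C3 (q j) * (8 / T) ^ (k j)) ^ 2 := by
  have hX1 : (1 : ℝ) ≤ X := by exact_mod_cast hX
  have hlog : 0 ≤ Real.log X := Real.log_nonneg hX1
  have hT0 : 0 < T := by linarith
  have ht1 : 1 ≤ t := by linarith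
  have hw : ∀ p, 0 ≤ wf X C3 p := fun p => by unfold wf; positivity
  have hbd : ∀ (e : ℕ), e ≤ 2 → ∀ p ∈ FR X, ∀ x : ℝ, 0 ≤ x →
      |ev X e p (t + x)| ≤ wf X C3 p * (8 / T) ^ e := by
    intro e he p hp x hx
    have h1 := ev_bd hcr (k := e) he hp (u := t + x) (by linarith)
    refine h1.trans ?_
    have h2 : (T / 8) ^ e ≤ (t + x) ^ e := pow_le_pow_left₀ (by positivity) (by linarith) _
    have h3 : 0 < (T / 8) ^ e := by positivity
    calc C3 * (1 + Real.log X) * (√(ht p))⁻¹ / (t + x) ^ e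
        ≤ wf X C3 p / (T / 8) ^ e := by
          unfold wf
          exact div_le_div_of_nonneg_left (hw p) h3 h2
      _ = wf X C3 p * (8 / T) ^ e := by
          rw [div_eq_mul_inv, ← inv_pow, inv_div]
  have h := hL X 0 U hX (by linarith) le_rfl (by linarith)
    (fun j p x => (ev X (k j) p (t + x) : ℂ)) (fun j p x => (ev X (k j + 1) p (t + x) : ℂ))
    (fun q => if q ∈ D then GG φ a q t else 0)
    (fun j p => 8 * A * wf X C3 p * (8 / T) ^ (k j))
    (by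
      intro j p hp x hx
      exact ((ev_deriv hcr (hk j) hp (by linarith [hx.1])).comp_const_add t x).ofReal_comp)
    (by
      intro j p hp
      exact (Complex.continuous_ofReal.comp ((ev_cont hcr _ hp).comp (by fun_prop))).continuousOn)
    (by
      intro j p hp x hx
      rw [Complex.norm_real, Real.norm_eq_abs]
      refine (hbd (k j) (by have := hk j; omega) p hp x hx.1).trans ?_
      have h1 : 0 ≤ wf X C3 p * (8 / T) ^ (k j) := mul_nonneg (hw p) (by positivity)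
      nlinarith)
    (by
      intro j p hp
      have hcn : Continuous fun x : ℝ => ‖(ev X (k j + 1) p (t + x) : ℂ)‖ :=
        (Complex.continuous_ofReal.comp ((ev_cont hcr _ hp).comp (by fun_prop))).norm
      calc ∫ x in (0:ℝ)..U, ‖(ev X (k j + 1) p (t + x) : ℂ)‖
          ≤ ∫ _x in (0:ℝ)..U, wf X C3 p * (8 / T) ^ (k j + 1) := by
            apply intervalIntegral.integral_mono_on (by linarith) (hcn.intervalIntegrable _ _)
              (continuous_const.intervalIntegrable _ _)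
            intro x hx
            rw [Complex.norm_real, Real.norm_eq_abs]
            exact hbd (k j + 1) (by have := hk j; omega) p hp x hx.1
        _ = U * (wf X C3 p * (8 / T) ^ (k j + 1)) := by
            rw [intervalIntegral.integral_const, smul_eq_mul, sub_zero]
        _ ≤ (A * T) * (wf X C3 p * (8 / T) ^ (k j + 1)) :=
            mul_le_mul_of_nonneg_right hUA (mul_nonneg (hw p) (by positivity))
        _ = _ := by
            rw [pow_succ]
            field_simp)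
  have e1 : ∀ c : Fin n → ℝ, ∑ q ∈ Fintype.piFinset (fun _ : Fin n => FR X),
      (if q ∈ D then GG φ a q t else 0) * ∏ j, ((ev X (k j) (q j) (t + c j) : ℂ) *
        cexp (I * ((c j * lam (q j) : ℝ) : ℂ))) = SD φ a X D k c t := by
    intro c
    unfold SD
    simp only [ite_mul, zero_mul]
    rw [Finset.sum_ite_mem, Finset.inter_eq_right.2 hD]
  have e2 : ∑ q ∈ Fintype.piFinset (fun _ : Fin n => FR X),
      ‖if q ∈ D then GG φ a q t else 0‖ ^ 2 * ∏ j, (8 * A * wf X C3 (q j) * (8 / T) ^ (k j)) ^ 2 =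
      ∑ q ∈ D, ‖GG φ a q t‖ ^ 2 * ∏ j, (8 * A * wf X C3 (q j) * (8 / T) ^ (k j)) ^ 2 := by
    have : ∀ q : Fin n → ℕ × ℕ, ‖if q ∈ D then GG φ a q t else 0‖ ^ 2 *
        ∏ j, (8 * A * wf X C3 (q j) * (8 / T) ^ (k j)) ^ 2 =
        if q ∈ D then ‖GG φ a q t‖ ^ 2 *
          ∏ j, (8 * A * wf X C3 (q j) * (8 / T) ^ (k j)) ^ 2 else 0 := by
      intro q
      split_ifs
      · rfl
      · simp
    simp only [this]
    rw [Finset.sum_ite_mem, Finset.inter_eq_right.2 hD]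
  simp only [e1] at h
  rw [e2] at h
  exact h

/-- the weights and the heights -/
lemma wprod (X : ℕ) {C3 T A : ℝ} (q : Fin n → ℕ × ℕ) (k : Fin n → ℕ) :
    ∏ j, (8 * A * wf X C3 (q j) * (8 / T) ^ (k j)) ^ 2 =
      ((8 * A * C3 * (1 + Real.log X)) ^ 2) ^ n * (∏ j, ((8 / T) ^ (k j)) ^ 2) *
        (∏ j, ht (q j))⁻¹ := by
  have h1 : ∀ j, (8 * A * wf X C3 (q j) * (8 / T) ^ (k j)) ^ 2 =
      (8 * A * C3 * (1 + Real.log X)) ^ 2 * ((8 / T) ^ (k j)) ^ 2 * (ht (q j))⁻¹ := by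
    intro j
    have h2 : 0 ≤ ht (q j) := by unfold ht; positivity
    have h3 : ((√(ht (q j)))⁻¹) ^ 2 = (ht (q j))⁻¹ := by rw [inv_pow, Real.sq_sqrt h2]
    unfold wf
    rw [← h3]
    ring
  rw [Finset.prod_congr rfl fun j _ => h1 j, Finset.prod_mul_distrib, Finset.prod_mul_distrib,
    Finset.prod_const, Finset.card_univ, Fintype.card_fin, Finset.prod_inv_distrib]

/-- mean square of the difference -/
lemma l2 {C2 C3 : ℝ} (hC2 : 0 < C2) (hC3 : 0 < C3)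
    (hL : ∀ (X : ℕ) (a T : ℝ), 1 ≤ X → 1 ≤ T → 0 ≤ a → a ≤ T →
      ∀ (A A' : Fin n → ℕ × ℕ → ℝ → ℂ) (B : (Fin n → ℕ × ℕ) → ℂ) (w : Fin n → ℕ × ℕ → ℝ),
      (∀ j, ∀ p ∈ FR X, ∀ x ∈ Icc a T, HasDerivAt (A j p) (A' j p x) x) →
      (∀ j, ∀ p ∈ FR X, ContinuousOn (A' j p) (Icc a T)) →
      (∀ j, ∀ p ∈ FR X, ∀ x ∈ Icc a T, ‖A j p x‖ ≤ w j p) →
      (∀ j, ∀ p ∈ FR X, ∫ x in a..T, ‖A' j p x‖ ≤ w j p) →
      ∫ c, ‖∑ q ∈ Fintype.piFinset (fun _ : Fin n => FR X),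
          B q * ∏ j, (A j (q j) (c j) * cexp (I * ((c j * lam (q j) : ℝ) : ℂ)))‖ ^ 2 ∂(mB n a T) ≤
        (C2 * ((T + X) * (1 + Real.log X))) ^ n *
          ∑ q ∈ Fintype.piFinset (fun _ : Fin n => FR X), ‖B q‖ ^ 2 * ∏ j, w j (q j) ^ 2)
    {φ : ℝ → ℂ} (hφ : Continuous φ) {X : ℕ} {T U A : ℝ} (hX : 1 ≤ X) (hcr : CRB X C3)
    (hT : 8 ≤ T) (hTU : T ≤ U) (hUA : U ≤ A * T) (hA : 1 ≤ A)
    {D : Finset (Fin n → ℕ × ℕ)} (hD : D ⊆ Fintype.piFinset fun _ : Fin n => FR X)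
    {M0 : ℝ} (hM0 : ∀ t, T / 8 ≤ t → t ≤ 8 * T →
      ∑ q ∈ D, ‖GG φ (T / 8) q t‖ ^ 2 * (∏ j, ht (q j))⁻¹ ≤ M0) :
    ∫ c, ‖∫ t in (T / 8)..(8 * T), MM φ X D c t‖ ^ 2 ∂(mB n 0 U) ≤
      4096 * ((n : ℝ) + 1) ^ 2 * ((C2 * ((U + X) * (1 + Real.log X))) ^ n *
        (((8 * A * C3 * (1 + Real.log X)) ^ 2) ^ n * M0)) := by
  have hX1 : (1 : ℝ) ≤ X := by exact_mod_cast hX
  have hlog : 0 ≤ Real.log X := Real.log_nonneg hX1
  have hT0 : 0 < T := by linarith
  have hU0 : 0 < U := by linarith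
  have hab : T / 8 ≤ 8 * T := by linarith
  obtain ⟨R, hR⟩ : ∃ R : ℝ, R = (C2 * ((U + X) * (1 + Real.log X))) ^ n *
        (((8 * A * C3 * (1 + Real.log X)) ^ 2) ^ n * M0) := ⟨_, rfl⟩
  have hM00 : 0 ≤ M0 := by
    refine le_trans ?_ (hM0 (8 * T) hab le_rfl)
    refine Finset.sum_nonneg fun q _ => mul_nonneg (by positivity) (inv_nonneg.2 ?_)
    exact Finset.prod_nonneg fun j _ => by unfold ht; positivity
  have hR0 : 0 ≤ R := by rw [hR]; positivity
  rw [← hR]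
  have hfix : ∀ t, T / 8 ≤ t → t ≤ 8 * T → ∀ k : Fin n → ℕ, (∀ j, k j ≤ 1) →
      ∫ c, ‖SD φ (T / 8) X D k c t‖ ^ 2 ∂(mB n 0 U) ≤ R * ∏ j, ((8 / T) ^ (k j)) ^ 2 := by
    intro t ht1 ht2 k hk
    refine (fixed hC3 hL φ (T / 8) hX hcr hT hTU hUA hA ht1 hD hk).trans ?_
    simp only [wprod]
    have e1 : ∑ q ∈ D, ‖GG φ (T / 8) q t‖ ^ 2 *
        (((8 * A * C3 * (1 + Real.log X)) ^ 2) ^ n * (∏ j, ((8 / T) ^ (k j)) ^ 2) *
          (∏ j, ht (q j))⁻¹) =
        ((8 * A * C3 * (1 + Real.log X)) ^ 2) ^ n * (∏ j, ((8 / T) ^ (k j)) ^ 2) *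
          ∑ q ∈ D, ‖GG φ (T / 8) q t‖ ^ 2 * (∏ j, ht (q j))⁻¹ := by
      rw [Finset.mul_sum]
      exact Finset.sum_congr rfl fun q _ => by ring
    rw [e1]
    have h2 := hM0 t ht1 ht2
    have h3 : 0 ≤ ∏ j, ((8 / T) ^ (k j)) ^ 2 := Finset.prod_nonneg fun j _ => by positivity
    calc (C2 * ((U + X) * (1 + Real.log X))) ^ n *
          (((8 * A * C3 * (1 + Real.log X)) ^ 2) ^ n * (∏ j, ((8 / T) ^ (k j)) ^ 2) *
            ∑ q ∈ D, ‖GG φ (T / 8) q t‖ ^ 2 * (∏ j, ht (q j))⁻¹)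
        ≤ (C2 * ((U + X) * (1 + Real.log X))) ^ n *
          (((8 * A * C3 * (1 + Real.log X)) ^ 2) ^ n * (∏ j, ((8 / T) ^ (k j)) ^ 2) * M0) := by
          gcongr
      _ = _ := by rw [hR]; ring
  have hcJ : ∀ k : Fin n → ℕ, Continuous fun c : Fin n → ℝ =>
      ∫ t in (T / 8)..(8 * T), SD φ (T / 8) X D k c t := fun k =>
    intervalIntegral.continuous_parametric_intervalIntegral_of_continuous'
      (SD_cont hφ (T / 8) hcr hD k) _ _
  have hder : ∀ j : Fin n, ∫ c, ‖∫ t in (T / 8)..(8 * T),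
      SD φ (T / 8) X D (fun i => if i = j then 1 else 0) c t‖ ^ 2 ∂(mB n 0 U) ≤ 4096 * R := by
    intro j
    have h5 := mink (n := n) (a := 0) (T := U) (S := 8 * T - (T / 8 - 1)) (M := R * (8 / T) ^ 2)
      (by linarith)
      (g := fun c t => SD φ (T / 8) X D (fun i => if i = j then 1 else 0) c (t + (T / 8 - 1)))
      ((SD_cont hφ (T / 8) hcr hD (fun i => if i = j then 1 else 0)).comp
        (g := Function.uncurry fun (c : Fin n → ℝ) (t : ℝ) =>
          SD φ (T / 8) X D (fun i => if i = j then 1 else 0) c t)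
        (f := fun x : (Fin n → ℝ) × ℝ => (x.1, x.2 + (T / 8 - 1))) (by fun_prop))
      (f := fun _ => 1) continuous_const (fun _ => one_pos)
      (by
        intro t ht1 ht2
        have h6 := hfix (t + (T / 8 - 1)) (by linarith) (by linarith)
          (fun i => if i = j then 1 else 0) (fun i => by split_ifs <;> norm_num)
        refine h6.trans (le_of_eq ?_)
        have e1 : ∀ i : Fin n, ((8 / T) ^ (if i = j then 1 else 0)) ^ 2 =
            if i = j then (8 / T) ^ 2 else 1 := by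
          intro i
          split_ifs
          · rw [pow_one]
          · simp
        rw [Finset.prod_congr rfl fun i _ => e1 i, Finset.prod_ite_eq' Finset.univ j,
          if_pos (Finset.mem_univ j)]
        ring)
    have e2 : ∀ c : Fin n → ℝ, ∫ t in (1:ℝ)..(8 * T - (T / 8 - 1)),
        SD φ (T / 8) X D (fun i => if i = j then 1 else 0) c (t + (T / 8 - 1)) =
        ∫ t in (T / 8)..(8 * T), SD φ (T / 8) X D (fun i => if i = j then 1 else 0) c t := by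
      intro c
      rw [intervalIntegral.integral_comp_add_right
        (fun t => SD φ (T / 8) X D (fun i => if i = j then 1 else 0) c t)]
      congr 1 <;> ring
    simp only [e2] at h5
    refine h5.trans ?_
    rw [intervalIntegral.integral_const, smul_eq_mul, mul_one]
    have h7 : (8 * T - (T / 8 - 1) - 1) ^ 2 ≤ (8 * T) ^ 2 :=
      pow_le_pow_left₀ (by linarith) (by linarith) 2
    calc R * (8 / T) ^ 2 * (8 * T - (T / 8 - 1) - 1) ^ 2 ≤ R * (8 / T) ^ 2 * (8 * T) ^ 2 := by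
          gcongr
      _ = 4096 * R := by
          field_simp
          ring
  have hpt : ∀ (x : ℂ) (y : Fin n → ℂ), ‖x - ∑ j, y j‖ ^ 2 ≤
      (n + 1) * (‖x‖ ^ 2 + ∑ j, ‖y j‖ ^ 2) := by
    intro x y
    have h5 : ‖x - ∑ j, y j‖ ≤ ‖x‖ + ∑ j, ‖y j‖ :=
      (norm_sub_le _ _).trans (by gcongr; exact norm_sum_le _ _)
    have h7 := sq_sum_le_card_mul_sum_sq (s := (Finset.univ : Finset (Fin (n + 1))))
      (f := Fin.cons ‖x‖ (fun j => ‖y j‖))
    rw [Finset.card_univ, Fintype.card_fin, Fin.sum_univ_succ, Fin.sum_univ_succ] at h7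
    simp only [Fin.cons_zero, Fin.cons_succ] at h7
    push_cast at h7
    exact (pow_le_pow_left₀ (norm_nonneg _) h5 2).trans h7
  have hcb : Continuous fun c : Fin n → ℝ => SD φ (T / 8) X D (fun _ => 0) c (8 * T) := by
    have h6 : (fun c : Fin n → ℝ => SD φ (T / 8) X D (fun _ => 0) c (8 * T)) = fun c =>
        Function.uncurry (fun (c : Fin n → ℝ) (t : ℝ) => SD φ (T / 8) X D (fun _ => 0) c t)
          (c, 8 * T) := rfl
    rw [h6]
    exact (SD_cont hφ (T / 8) hcr hD _).comp (by fun_prop)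
  have hi1 : Integrable (fun c => ‖SD φ (T / 8) X D (fun _ => 0) c (8 * T)‖ ^ 2) (mB n 0 U) :=
    int_mB (hcb.norm.pow 2)
  have hi2 : ∀ j ∈ (Finset.univ : Finset (Fin n)), Integrable (fun c => ‖∫ t in (T / 8)..(8 * T),
      SD φ (T / 8) X D (fun i => if i = j then 1 else 0) c t‖ ^ 2) (mB n 0 U) := fun j _ =>
    int_mB ((hcJ _).norm.pow 2)
  calc ∫ c, ‖∫ t in (T / 8)..(8 * T), MM φ X D c t‖ ^ 2 ∂(mB n 0 U)
      = ∫ c, ‖SD φ (T / 8) X D (fun _ => 0) c (8 * T) - ∑ j, ∫ t in (T / 8)..(8 * T),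
          SD φ (T / 8) X D (fun i => if i = j then 1 else 0) c t‖ ^ 2 ∂(mB n 0 U) := by
        apply integral_congr_ae
        filter_upwards [ae_mB n 0 U] with c hc
        rw [parts hφ (by linarith) hab hcr hD (fun j => (hc j).1)]
    _ ≤ ∫ c, ((n : ℝ) + 1) * (‖SD φ (T / 8) X D (fun _ => 0) c (8 * T)‖ ^ 2 +
          ∑ j, ‖∫ t in (T / 8)..(8 * T),
            SD φ (T / 8) X D (fun i => if i = j then 1 else 0) c t‖ ^ 2) ∂(mB n 0 U) := by
        apply integral_mono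
        · exact int_mB ((hcb.sub (continuous_finsetSum _ fun j _ => hcJ _)).norm.pow 2)
        · exact (hi1.add (integrable_finsetSum _ hi2)).const_mul _
        · intro c
          exact hpt _ _
    _ = ((n : ℝ) + 1) * ((∫ c, ‖SD φ (T / 8) X D (fun _ => 0) c (8 * T)‖ ^ 2 ∂(mB n 0 U)) +
          ∑ j, ∫ c, ‖∫ t in (T / 8)..(8 * T),
            SD φ (T / 8) X D (fun i => if i = j then 1 else 0) c t‖ ^ 2 ∂(mB n 0 U)) := by
        rw [integral_const_mul, integral_add hi1 (integrable_finsetSum _ hi2),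
          integral_finsetSum _ hi2]
    _ ≤ ((n : ℝ) + 1) * (R + ∑ _j : Fin n, 4096 * R) := by
        gcongr with j _
        · have h6 := hfix (8 * T) hab le_rfl (fun _ => 0) (fun _ => Nat.zero_le _)
          simpa using h6
        · exact hder j
    _ = ((n : ℝ) + 1) * ((1 + 4096 * n) * R) := by
        rw [Finset.sum_const, Finset.card_univ, Fintype.card_fin, nsmul_eq_mul]
        ring
    _ ≤ 4096 * ((n : ℝ) + 1) ^ 2 * R := by
        have hn : (0:ℝ) ≤ n := by positivity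
        have h8 : ((n : ℝ) + 1) * (1 + 4096 * n) ≤ 4096 * ((n : ℝ) + 1) ^ 2 := by nlinarith
        calc ((n : ℝ) + 1) * ((1 + 4096 * n) * R) = (((n : ℝ) + 1) * (1 + 4096 * n)) * R := by ring
          _ ≤ _ := mul_le_mul_of_nonneg_right h8 hR0

end

end Pool.Agent.Y547.SX
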