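import Pool.Agent.Y547.SX.MinA

set_option autoImplicit false

/-!
Project SX (helper969), job SX-MIN, part 2: the dyadic blocks.
-/

namespace Pool.Agent.Y547.SX

open Pool.Agent.Y969.GP MeasureTheory Set
open Pool.Agent.Y969.SM (Lam)
open Complex hiding mk

noncomputable section

variable {n : ℕ}

/-- the product of the heights -/
def hn (q : Fin n → ℕ × ℕ) : ℕ := ∏ j, ((q j).1 * (q j).2)

lemma ht_hn (q : Fin n → ℕ × ℕ) : ∏ j, ht (q j) = (hn q : ℝ) := by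
  unfold hn ht
  push_cast
  rfl

/-- the frequency integral as an integral over a fixed interval -/
lemma GG_eq (φ : ℝ → ℂ) {T t : ℝ} (hT : 0 < T) (ht1 : T / 8 ≤ t) (ht2 : t ≤ 8 * T)
    (q : Fin n → ℕ × ℕ) :
    GG φ (T / 8) q t = ∫ s in Icc 0 (8 * T), (Ioc (T / 8) t).indicator φ s *
      cexp (I * ((s * Lam q : ℝ) : ℂ)) := by
  have h1 : ∀ s : ℝ, (Ioc (T / 8) t).indicator φ s * cexp (I * ((s * Lam q : ℝ) : ℂ)) =
      (Ioc (T / 8) t).indicator (fun s => φ s * cexp (I * ((s * Lam q : ℝ) : ℂ))) s := by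
    intro s
    by_cases hs : s ∈ Ioc (T / 8) t
    · rw [indicator_of_mem hs, indicator_of_mem hs]
    · rw [indicator_of_notMem hs, indicator_of_notMem hs, zero_mul]
  simp only [h1]
  rw [setIntegral_indicator measurableSet_Ioc]
  have h2 : Icc 0 (8 * T) ∩ Ioc (T / 8) t = Ioc (T / 8) t := by
    apply inter_eq_right.2
    intro s hs
    exact ⟨by linarith [hs.1], by linarith [hs.2]⟩
  rw [h2]
  unfold GG
  rw [intervalIntegral.integral_of_le ht1]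

/-- the sum over high frequencies -/
lemma blocks {m : ℕ} {ε CB σ : ℝ} (hε : 0 < ε) (hCB : 0 < CB)
    (hB : ∀ (T L I1 I2 : ℝ) (φ : ℝ → ℂ) (S : Finset (Fin n → ℕ × ℕ)), 1 ≤ T → 1 ≤ L →
      T ≤ L ^ (2 * m) →
      IntegrableOn φ (Set.Icc 0 (8 * T)) → IntegrableOn (fun t => ‖φ t‖ ^ 2) (Set.Icc 0 (8 * T)) →
      ∫ t in Set.Icc 0 (8 * T), ‖φ t‖ ≤ I1 → ∫ t in Set.Icc 0 (8 * T), ‖φ t‖ ^ 2 ≤ I2 →
      (∀ q ∈ S, ∀ j, 1 ≤ (q j).1 ∧ 1 ≤ (q j).2 ∧ Nat.Coprime (q j).1 (q j).2) →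
      (∀ q ∈ S, ∏ j, ht (q j) ≤ L) →
      ∑ q ∈ S, ‖∫ t in Set.Icc 0 (8 * T), φ t * cexp (I * ((t * Lam q : ℝ) : ℂ))‖ ^ 2 ≤
        CB * (I1 ^ (2 - 1 / (2 * (m : ℝ))) * I2 ^ (1 / (4 * (m : ℝ))) * L ^ (1 + ε)))
    (hσ : 0 < σ) (hmσ : 1 ≤ σ * (2 * m)) {φ : ℝ → ℂ} (hφ : Continuous φ) {T I1 I2 : ℝ}
    (hT : 1 ≤ T) (hI1 : ∫ t in Set.Icc 0 (8 * T), ‖φ t‖ ≤ I1)
    (hI2 : ∫ t in Set.Icc 0 (8 * T), ‖φ t‖ ^ 2 ≤ I2) (D : Finset (Fin n → ℕ × ℕ)) {X : ℕ}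
    (hX : 1 ≤ X)
    (hD : ∀ q ∈ D, ∀ j, 1 ≤ (q j).1 ∧ 1 ≤ (q j).2 ∧ Nat.Coprime (q j).1 (q j).2)
    (hD1 : ∀ q ∈ D, T ^ σ ≤ (hn q : ℝ)) (hD2 : ∀ q ∈ D, 1 < hn q) (hD3 : ∀ q ∈ D, hn q ≤ X ^ n)
    {t : ℝ} (ht1 : T / 8 ≤ t) (ht2 : t ≤ 8 * T) :
    ∑ q ∈ D, ‖GG φ (T / 8) q t‖ ^ 2 * (∏ j, ht (q j))⁻¹ ≤
      ((2 * (X : ℝ) ^ n) ^ ε / (ε * Real.log 2) + 1) *
        (2 * CB * (I1 ^ (2 - 1 / (2 * (m : ℝ))) * I2 ^ (1 / (4 * (m : ℝ)))) *
          (2 * (X : ℝ) ^ n) ^ ε) := by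
  have hT0 : 0 < T := by linarith
  have hX1 : (1 : ℝ) ≤ X := by exact_mod_cast hX
  obtain ⟨W, hW⟩ : ∃ W : ℝ, W = 2 * (X : ℝ) ^ n := ⟨_, rfl⟩
  obtain ⟨Q, hQ⟩ : ∃ Q : ℝ, Q = I1 ^ (2 - 1 / (2 * (m : ℝ))) * I2 ^ (1 / (4 * (m : ℝ))) := ⟨_, rfl⟩
  have hI10 : 0 ≤ I1 := le_trans (integral_nonneg fun _ => norm_nonneg _) hI1
  have hI20 : 0 ≤ I2 := le_trans (integral_nonneg fun _ => by positivity) hI2
  have hQ0 : 0 ≤ Q := by rw [hQ]; positivity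
  have hXn : (1:ℝ) ≤ (X : ℝ) ^ n := one_le_pow₀ hX1
  have hW1 : 1 ≤ W := by rw [hW]; linarith
  have hW0 : 0 < W := by linarith
  rw [← hW, ← hQ]
  -- the truncated function
  obtain ⟨ψ, hψ⟩ : ∃ ψ : ℝ → ℂ, ψ = (Ioc (T / 8) t).indicator φ := ⟨_, rfl⟩
  have hψle : ∀ s, ‖ψ s‖ ≤ ‖φ s‖ := by
    intro s
    rw [hψ]
    exact norm_indicator_le_norm_self _ _
  have hcomp : IntegrableOn φ (Icc 0 (8 * T)) :=
    hφ.continuousOn.integrableOn_compact isCompact_Icc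
  have hcomp2 : IntegrableOn (fun s => ‖φ s‖ ^ 2) (Icc 0 (8 * T)) :=
    (hφ.norm.pow 2).continuousOn.integrableOn_compact isCompact_Icc
  have hψi : IntegrableOn ψ (Icc 0 (8 * T)) := by
    rw [hψ]
    exact hcomp.indicator measurableSet_Ioc
  have hψ2 : IntegrableOn (fun s => ‖ψ s‖ ^ 2) (Icc 0 (8 * T)) := by
    have e1 : (fun s => ‖ψ s‖ ^ 2) = (Ioc (T / 8) t).indicator (fun s => ‖φ s‖ ^ 2) := by
      funext s
      rw [hψ]
      by_cases hs : s ∈ Ioc (T / 8) t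
      · rw [indicator_of_mem hs, indicator_of_mem hs]
      · rw [indicator_of_notMem hs, indicator_of_notMem hs]
        simp
    rw [e1]
    exact hcomp2.indicator measurableSet_Ioc
  have hψI1 : ∫ s in Icc 0 (8 * T), ‖ψ s‖ ≤ I1 :=
    (integral_mono hψi.norm hcomp.norm fun s => hψle s).trans hI1
  have hψI2 : ∫ s in Icc 0 (8 * T), ‖ψ s‖ ^ 2 ≤ I2 :=
    (integral_mono hψ2 hcomp2 fun s => pow_le_pow_left₀ (norm_nonneg _) (hψle s) 2).trans hI2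
  -- the blocks
  obtain ⟨I0, hI0⟩ : ∃ I0 : ℕ, I0 = Nat.log 2 (2 * X ^ n) := ⟨_, rfl⟩
  have hpos : 2 * X ^ n ≠ 0 := by positivity
  have hclog : ∀ q ∈ D, 2 ^ (Nat.clog 2 (hn q)) < 2 * hn q := by
    intro q hq
    have e1 := Nat.pow_pred_clog_lt_self (b := 2) one_lt_two (hD2 q hq)
    have e2 : 0 < Nat.clog 2 (hn q) := Nat.clog_pos one_lt_two (hD2 q hq)
    obtain ⟨i, hi⟩ : ∃ i, Nat.clog 2 (hn q) = i + 1 := ⟨_, (Nat.succ_pred_eq_of_pos e2).symm⟩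
    rw [hi] at e1 ⊢
    rw [pow_succ]
    simp only [Nat.pred_succ] at e1
    omega
  have hmaps : ∀ q ∈ D, Nat.clog 2 (hn q) ∈ Finset.range (I0 + 1) := by
    intro q hq
    rw [Finset.mem_range, Nat.lt_succ_iff, hI0]
    apply Nat.le_log_of_pow_le one_lt_two
    have e1 := hclog q hq
    have e2 := hD3 q hq
    omega
  rw [← Finset.sum_fiberwise_of_maps_to hmaps]
  have hblock : ∀ i ∈ Finset.range (I0 + 1), ∑ q ∈ D with Nat.clog 2 (hn q) = i,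
      ‖GG φ (T / 8) q t‖ ^ 2 * (∏ j, ht (q j))⁻¹ ≤ 2 * CB * Q * W ^ ε := by
    intro i _
    rcases (D.filter fun q => Nat.clog 2 (hn q) = i).eq_empty_or_nonempty with hem | ⟨q₀, hq₀⟩
    · rw [hem, Finset.sum_empty]
      positivity
    rw [Finset.mem_filter] at hq₀
    have hL0 : (0:ℝ) < (2:ℝ) ^ i := by positivity
    have hLW : (2:ℝ) ^ i ≤ W := by
      have e1 := hclog q₀ hq₀.1
      rw [hq₀.2] at e1
      have e2 := hD3 q₀ hq₀.1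
      have e3 : 2 ^ i ≤ 2 * X ^ n := by omega
      rw [hW]
      exact_mod_cast e3
    have hle : ∀ q ∈ D, Nat.clog 2 (hn q) = i → (hn q : ℝ) ≤ (2:ℝ) ^ i := by
      intro q hq hqi
      have e1 := Nat.le_pow_clog (b := 2) one_lt_two (hn q)
      rw [hqi] at e1
      exact_mod_cast e1
    have hTL : T ≤ ((2:ℝ) ^ i) ^ (2 * m) := by
      have e1 : T ^ σ ≤ (2:ℝ) ^ i := (hD1 q₀ hq₀.1).trans (hle q₀ hq₀.1 hq₀.2)
      calc T = T ^ (1:ℝ) := (Real.rpow_one T).symm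
        _ ≤ T ^ (σ * (2 * m)) := Real.rpow_le_rpow_of_exponent_le hT hmσ
        _ = (T ^ σ) ^ (2 * m) := by
            rw [Real.rpow_mul hT0.le, ← Real.rpow_natCast]
            push_cast
            rfl
        _ ≤ ((2:ℝ) ^ i) ^ (2 * m) := pow_le_pow_left₀ (by positivity) e1 _
    have h1 := hB T ((2:ℝ) ^ i) I1 I2 ψ (D.filter fun q => Nat.clog 2 (hn q) = i) hT
      (one_le_pow₀ (by norm_num)) hTL hψi hψ2 hψI1 hψI2
      (fun q hq => hD q (Finset.mem_filter.1 hq).1)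
      (fun q hq => by
        rw [ht_hn]
        exact hle q (Finset.mem_filter.1 hq).1 (Finset.mem_filter.1 hq).2)
    rw [← hQ] at h1
    have h2 : ∀ q ∈ D.filter (fun q => Nat.clog 2 (hn q) = i),
        ‖GG φ (T / 8) q t‖ ^ 2 * (∏ j, ht (q j))⁻¹ ≤
        (2 / (2:ℝ) ^ i) * ‖∫ t in Set.Icc 0 (8 * T), ψ t * cexp (I * ((t * Lam q : ℝ) : ℂ))‖ ^ 2 := by
      intro q hq
      rw [Finset.mem_filter] at hq
      rw [GG_eq φ hT0 ht1 ht2 q, ← hψ, ht_hn, mul_comm]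
      apply mul_le_mul_of_nonneg_right _ (by positivity)
      have e1 := hclog q hq.1
      rw [hq.2] at e1
      have e2 : (2:ℝ) ^ i < 2 * (hn q : ℝ) := by exact_mod_cast e1
      have e3 : (0:ℝ) < hn q := by
        have := hD2 q hq.1
        have : 0 < hn q := by omega
        exact_mod_cast this
      rw [inv_eq_one_div, div_le_div_iff₀ e3 hL0]
      linarith
    calc ∑ q ∈ D with Nat.clog 2 (hn q) = i, ‖GG φ (T / 8) q t‖ ^ 2 * (∏ j, ht (q j))⁻¹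
        ≤ ∑ q ∈ D with Nat.clog 2 (hn q) = i, (2 / (2:ℝ) ^ i) *
          ‖∫ t in Set.Icc 0 (8 * T), ψ t * cexp (I * ((t * Lam q : ℝ) : ℂ))‖ ^ 2 :=
          Finset.sum_le_sum h2
      _ ≤ (2 / (2:ℝ) ^ i) * (CB * (Q * ((2:ℝ) ^ i) ^ (1 + ε))) := by
          rw [← Finset.mul_sum]
          exact mul_le_mul_of_nonneg_left h1 (by positivity)
      _ = 2 * CB * Q * ((2:ℝ) ^ i) ^ ε := by
          rw [Real.rpow_add hL0, Real.rpow_one]
          field_simp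
      _ ≤ 2 * CB * Q * W ^ ε := by
          apply mul_le_mul_of_nonneg_left _ (by positivity)
          exact Real.rpow_le_rpow hL0.le hLW hε.le
  refine (Finset.sum_le_sum hblock).trans ?_
  rw [Finset.sum_const, Finset.card_range, nsmul_eq_mul]
  apply mul_le_mul_of_nonneg_right _ (by positivity)
  push_cast
  have hl2 : 0 < Real.log 2 := Real.log_pos (by norm_num)
  have e1 : ((2:ℝ)) ^ I0 ≤ W := by
    have := Nat.pow_log_le_self 2 hpos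
    rw [← hI0] at this
    rw [hW]
    exact_mod_cast this
  have e2 : (I0 : ℝ) * Real.log 2 ≤ W ^ ε / ε := by
    calc (I0 : ℝ) * Real.log 2 = Real.log ((2:ℝ) ^ I0) := by rw [Real.log_pow]
      _ ≤ Real.log W := Real.log_le_log (by positivity) e1
      _ ≤ W ^ ε / ε := Real.log_le_rpow_div hW0.le hε
  have e3 : (I0 : ℝ) ≤ W ^ ε / (ε * Real.log 2) := by
    rw [← div_div, le_div_iff₀ hl2]
    exact e2
  linarith

end

end Pool.Agent.Y547.SX
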